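import Pool.Agent.Q49.WU.Facts

/-!
# Deligne's conjecture, one Hodge type bound at a time

Let `M` be the category of motives over `ℚ` for absolute Hodge cycles with rational coefficients, a
semisimple abelian category with Tate twists `V ↦ V(a)`. For a simple object `V` let `p(V)` be the
largest integer `p` such that the Hodge number `h^{p,q}(V)` is not zero for some `q` (so
`p(V(a)) = p(V) - a`). Fix an integer `h ≥ 0`. For a separated `ℚ`-scheme `X` of finite type and integers
`N`, `n` let `D.H N n X` be the sum of all simple constituents `V` with `p(V) = h + N` of the graded
object of the weight filtration of `H^n_c(X)`. Taking this part is an exact functor, because `M` is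
semisimple, and so there are long exact sequences for closed-open decompositions; an affine bundle with
fibre of dimension `m - 1` shifts `h + N` by `m - 1`. For smooth projective `X` the objects `D.H 0 n X`
are the sums of the simple constituents `V` of `h^n(X)` with `p(V) = h`.

For a motive `N` let `C.crit N` say that `N` is pure and critical, `C.L N = L(N, 0)`, and let `C.c N` be
Deligne's period `c⁺(N)` in some rational bases. `Deligne ℚ C N` is the statement of question Q1 for `N`.
`Holds D C N X` says that it is true for all direct factors of all Tate twists of `D.H N n X`, `n ∈ ℤ`.

So `Holds D C 0 Y` for all smooth projective `Y` is Deligne's conjecture for the critical Tate twists of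
all motives which are direct sums of simple constituents `V` of motives `h^i(Y)` (of any degree `i`) with
`p(V) = h`, that is with Hodge types `(p, q)`, `0 ≤ p, q ≤ h`, where `h` is attained. For `h = 0` these
are the Artin motives, for `h = 1` the motives of abelian varieties and Artin motives (twisted by `-1`),
for `h = 2` the new ones are the transcendental motives of surfaces and the constituents of
`h^3(Y)` of Hodge types `(2,1), (1,2)` and of `h^4(Y)` of type `(2,2)`. Every pure motive over `ℚ` is a
direct sum of Tate twists of such constituents, and question Q1 is the statement for all `h` (a critical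
motive is a direct sum of critical simple ones).

**Theorem.** Let `h ≥ 0`. The following are equivalent:

* Deligne's conjecture is true for the critical twists of all direct sums of simple constituents `V`,
  `p(V) = h`, of the motives `h^i(Y)`, for all smooth projective varieties `Y` over `ℚ` and all `i`;
* it is true for the critical twists of all direct sums of simple constituents `V`, `p(V) = h + a - 1`, of
  the motives `Gr^W H^n_c(X_H)`, for the smooth affine cubic hypersurfaces
  `X_H : ∑_{(i, j, l) ∈ H} x_i y_j z_l = 1` of all finite sets `H` of triples, where `a` is the number of
  the variables `x_i`;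
* the same for the hypersurfaces `T(x, y, z) = 1` of all trilinear forms with rational coefficients in `a`
  variables `x_i` and any numbers of variables `y_j`, `z_l`.
-/

set_option autoImplicit false

open CategoryTheory CategoryTheory.Limits AlgebraicGeometry Pool.Agent.Y116.UV Pool.Agent.Z125.UN
  Pool.Agent.Q193.LT Pool.Agent.Q49.WU

universe v u

namespace Pool.Agent.Results.MP_b696eb_nt.HodgeTypeBound

/-- Deligne's conjecture for all direct factors of the Tate twists of the objects `D.H N n X`. -/
def Holds {M : Type u} [Category.{v} M] [Abelian M] (D : WeightData ℚ M) (C : CritData M ℂ) (N : ℤ)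
    (X : Sch ℚ) : Prop :=
  InAt D (TwFacts D (Deligne ℚ C)) N X

/-- **Deligne's conjecture, one Hodge type bound at a time.** See the explanations above; `point` is the
known case of the Tate motives (Euler). -/
theorem result {M : Type u} [Category.{v} M] [Abelian M] {D : WeightData ℚ M} (h : IsWMotives D)
    {C : CritData M ℂ} (hC : IsCrit ℚ C) (point : ∀ N, Holds D C N (aff ℚ ℚ)) :
    ((∀ Y : Sch ℚ, SmoothProj Y → Holds D C 0 Y) ↔
      ∀ (a b c : ℕ) (H : Finset (Fin a × Fin b × Fin c)), Holds D C (a - 1) (tripS ℚ H)) ∧
    ((∀ Y : Sch ℚ, SmoothProj Y → Holds D C 0 Y) ↔
      ∀ (a b c : ℕ) (T : Fin a → Fin b → Fin c → ℚ), Holds D C (a - 1) (hypS T)) := by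
  have hS := deligne_twSerre (D := D) h.weight h.semisimple hC
  have h1 := sp_weight_graph h.weight h.generated hS point frac_rat 0
  have h2 := sp_weight_iff h.weight h.generated hS point 0
  simp only [zero_add] at h1 h2
  exact ⟨h1, h2⟩

end Pool.Agent.Results.MP_b696eb_nt.HodgeTypeBound
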