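import Pool.Agent.Q317.LD.Gen

/-!
# Deligne's relation and fields of large degree with few places

`Ω` is an algebraic closure of `ℚ`, number fields are the finite extensions of `ℚ` in `Ω`. Let `M`
be a motive over a number field `k`. For `K ⊇ k` let `L K` be the critical value of the
`L`-function of `M` over `K` and `c K` the period, nonzero complex numbers.
-/

set_option autoImplicit false

namespace Pool.Agent.Results.MP_b696eb_nt.LargeDegreeFewPlaces

open IntermediateField Pool.Agent.Q317.ST Pool.Agent.Q317.ST.Perm Pool.Agent.Q317.LD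

attribute [-instance] DivisionRing.toRatAlgebra

variable {Ω : Type} [Field Ω] [Algebra ℚ Ω]

/-- `ℚˣ` in `ℂˣ` -/
noncomputable def rat : Subgroup ℂˣ := (Units.map (algebraMap ℚ ℂ : ℚ →* ℂ)).range

/-- `g`, a function on the finite extensions `K` of `k`, respects the relations between permutation
characters up to the subgroup `H`: if `∑ n_i π_i = 0` on the absolute Galois group of `k`, where
`π_i (σ)` is the number of the `k`-embeddings of `K_i` fixed by `σ`, then `∏ g (K_i) ^ n_i ∈ H`. -/
def RespectsModulo (k : IntermediateField ℚ Ω) (H : Subgroup ℂˣ)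
    (g : IntermediateField ℚ Ω → ℂˣ) : Prop :=
  ∀ (ι : Type) [Fintype ι] (n : ι → ℤ) (K : ι → IntermediateField ℚ Ω),
    (∀ i, FiniteDimensional ℚ (K i) ∧ k ≤ K i) →
    (∀ σ ∈ k.fixingSubgroup, ∑ i, n i * (fix k (K i) σ : ℤ) = 0) → ∏ i, g (K i) ^ n i ∈ H

/-- Deligne's relation: `x` is a rational multiple of `y`. -/
def Relation (x y : ℂˣ) : Prop := ∃ q : ℚ, (x : ℂ) = q * y

theorem relation_iff {x y : ℂˣ} : Relation x y ↔ x / y ∈ rat := by
  constructor
  · rintro ⟨q, hq⟩
    have hq0 : q ≠ 0 := by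
      rintro rfl
      rw [Rat.cast_zero, zero_mul] at hq
      exact x.ne_zero hq
    refine ⟨Units.mk0 q hq0, ?_⟩
    apply Units.ext
    rw [Units.val_div_eq_div_val, hq, mul_div_assoc, div_self y.ne_zero, mul_one]
    rfl
  · rintro ⟨q, hq⟩
    refine ⟨(q : ℚ), ?_⟩
    have h1 := congrArg (fun t : ℂˣ => (t : ℂ)) hq
    change ((q : ℚ) : ℂ) = ((x / y : ℂˣ) : ℂ) at h1
    rw [h1, Units.val_div_eq_div_val, div_mul_cancel₀ _ y.ne_zero]

/-- the quotients `L K / c K` modulo `ℚˣ` -/
noncomputable def quo (L c : IntermediateField ℚ Ω → ℂˣ) (K : IntermediateField ℚ Ω) :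
    Additive (ℂˣ ⧸ rat) :=
  Additive.ofMul (QuotientGroup.mk (L K / c K))

theorem quo_zero {L c : IntermediateField ℚ Ω → ℂˣ} {K : IntermediateField ℚ Ω} :
    quo L c K = 0 ↔ Relation (L K) (c K) := by
  unfold quo
  rw [ofMul_eq_zero, QuotientGroup.eq_one_iff, relation_iff]

theorem respects_quo {k : IntermediateField ℚ Ω} {L c : IntermediateField ℚ Ω → ℂˣ}
    (hL : RespectsModulo k ⊥ L) (hc : RespectsModulo k rat c) : Respects k (quo L c) := by
  intro ι _ m K hK hrel
  have h1 := hL ι m K hK hrel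
  have h2 := hc ι m K hK hrel
  rw [Subgroup.mem_bot] at h1
  have h3 : ∑ i, m i • quo L c (K i) = Additive.ofMul (QuotientGroup.mk
      ((∏ i, L (K i) ^ m i) / (∏ i, c (K i) ^ m i))) := by
    rw [← Finset.prod_div_distrib]
    have h4 : (QuotientGroup.mk (∏ i, L (K i) ^ m i / c (K i) ^ m i) : ℂˣ ⧸ rat) =
        ∏ i, (QuotientGroup.mk (L (K i) / c (K i)) : ℂˣ ⧸ rat) ^ m i := by
      rw [← QuotientGroup.mk'_apply rat, map_prod]
      refine Finset.prod_congr rfl fun i _ => ?_
      exact (congrArg (QuotientGroup.mk' rat) (div_zpow _ _ _).symm).trans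
        (map_zpow (QuotientGroup.mk' rat) _ _)
    rw [h4, ofMul_prod]
    rfl
  rw [h3, ofMul_eq_zero, QuotientGroup.eq_one_iff, h1, one_div]
  exact rat.inv_mem h2

theorem atMostOne_bot {F : IntermediateField ℚ Ω} {E : Type} [Field E]
    (h : Subsingleton (F →+* E)) : AtMostOne ⊥ F E := fun ρ ρ' _ => Subsingleton.elim ρ ρ'

theorem bot_atMostOne {F : IntermediateField ℚ Ω} {E : Type} [Field E]
    (h : AtMostOne ⊥ F E) : Subsingleton (F →+* E) := by
  refine ⟨fun ρ ρ' => h ρ ρ' fun x hx => ?_⟩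
  rw [IntermediateField.mem_bot] at hx
  obtain ⟨q, hq⟩ := hx
  have h1 : x = algebraMap ℚ F q := Subtype.ext hq.symm
  rw [h1]
  exact congrArg (fun t : ℚ →+* E => t q)
    (Subsingleton.elim (ρ.comp (algebraMap ℚ F)) (ρ'.comp (algebraMap ℚ F)))

theorem result (Ω : Type) [Field Ω] [Algebra ℚ Ω] [IsAlgClosure ℚ Ω] (N n : ℕ) :
    (∀ (k : IntermediateField ℚ Ω) [FiniteDimensional ℚ k] (L c : IntermediateField ℚ Ω → ℂˣ),
      RespectsModulo k ⊥ L → RespectsModulo k rat c →
      L k / c k ∈ rat ⊔ Subgroup.closure {x | ∃ F, Large k N n F ∧ L F / c F = x} ∧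
      ((∀ F, Large k N n F → Relation (L F) (c F)) → Relation (L k) (c k))) ∧
    (∀ L c : IntermediateField ℚ Ω → ℂˣ, RespectsModulo ⊥ ⊥ L → RespectsModulo ⊥ rat c →
      (∀ F : IntermediateField ℚ Ω, FiniteDimensional ℚ F → N ≤ Module.finrank ℚ F →
        Subsingleton (F →+* ℝ) → (∀ (p : ℕ) [Fact p.Prime], p ≤ n → Subsingleton (F →+* ℚ_[p])) →
        Relation (L F) (c F)) → Relation (L ⊥) (c ⊥)) := by
  have key : ∀ (k : IntermediateField ℚ Ω) [FiniteDimensional ℚ k]
      (L c : IntermediateField ℚ Ω → ℂˣ), RespectsModulo k ⊥ L → RespectsModulo k rat c →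
      L k / c k ∈ rat ⊔ Subgroup.closure {x | ∃ F, Large k N n F ∧ L F / c F = x} := by
    intro k _ L c hL hc
    have h1 := mem_closure k (respects_quo hL hc) N n
    have h2 : ∀ a ∈ AddSubgroup.closure {a | ∃ F, Large k N n F ∧ quo L c F = a},
        ∀ x : ℂˣ, Additive.ofMul (QuotientGroup.mk x) = a →
        x ∈ rat ⊔ Subgroup.closure {x | ∃ F, Large k N n F ∧ L F / c F = x} := by
      intro a ha
      induction ha using AddSubgroup.closure_induction with
      | mem a h =>
        obtain ⟨F, hF, rfl⟩ := h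
        intro x hx
        have h3 : (QuotientGroup.mk x : ℂˣ ⧸ rat) = QuotientGroup.mk (L F / c F) :=
          Additive.ofMul.injective hx
        have h4 := QuotientGroup.eq.1 h3.symm
        have h5 : x = (L F / c F) * ((L F / c F)⁻¹ * x) := by group
        rw [h5]
        exact mul_mem (le_sup_right (a := rat) (Subgroup.subset_closure ⟨F, hF, rfl⟩))
          (le_sup_left (b := Subgroup.closure {x | ∃ F, Large k N n F ∧ L F / c F = x}) h4)
      | zero =>
        intro x hx
        rw [ofMul_eq_zero, QuotientGroup.eq_one_iff] at hx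
        exact le_sup_left (b := Subgroup.closure {x | ∃ F, Large k N n F ∧ L F / c F = x}) hx
      | add a b _ _ iha ihb =>
        intro x hx
        obtain ⟨y, hy⟩ := QuotientGroup.mk_surjective (Additive.toMul a)
        have h3 := iha y (by rw [hy]; rfl)
        have h4 := ihb (y⁻¹ * x) (by
          rw [QuotientGroup.mk_mul, QuotientGroup.mk_inv, ofMul_mul, ofMul_inv, hx, hy]
          change -a + (a + b) = b
          abel)
        have h5 : x = y * (y⁻¹ * x) := by group
        rw [h5]
        exact mul_mem h3 h4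
      | neg a _ iha =>
        intro x hx
        have h3 := iha x⁻¹ (by
          rw [QuotientGroup.mk_inv, ofMul_inv, hx]
          exact neg_neg a)
        have h4 := inv_mem h3
        rwa [inv_inv] at h4
    exact h2 _ h1 _ rfl
  have key2 : ∀ (k : IntermediateField ℚ Ω) [FiniteDimensional ℚ k]
      (L c : IntermediateField ℚ Ω → ℂˣ), RespectsModulo k ⊥ L → RespectsModulo k rat c →
      (∀ F, Large k N n F → Relation (L F) (c F)) → Relation (L k) (c k) := by
    intro k _ L c hL hc h
    have h1 := key k L c hL hc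
    rw [relation_iff]
    have h2 : Subgroup.closure {x | ∃ F, Large k N n F ∧ L F / c F = x} ≤ rat := by
      rw [Subgroup.closure_le]
      rintro x ⟨F, hF, rfl⟩
      exact relation_iff.1 (h F hF)
    rwa [sup_eq_left.2 h2] at h1
  refine ⟨fun k _ L c hL hc => ⟨key k L c hL hc, key2 k L c hL hc⟩, ?_⟩
  intro L c hL hc h
  refine key2 ⊥ L c hL hc fun F hF => ?_
  obtain ⟨h1, h2, h3, h4, h5⟩ := hF
  exact h F h1 h3 (bot_atMostOne h4) fun p _ hp => bot_atMostOne (h5 p hp)

end Pool.Agent.Results.MP_b696eb_nt.LargeDegreeFewPlaces
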