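import Pool.Agent.Q5.DC.Law

/-!
# Deligne's conjecture in weight `-1` and the limiting distribution of the partial Euler products at `0`

Let `M` be a pure motive of weight `-1` over `ℚ` with rational coefficients; it is critical. Let `P_p ∈ ℚ[X]` be the
polynomial `det(1 - Frob_p X | M_l^{I_p})`, `α_{p,j}` its reciprocal roots, `L` the `L`-function, assumed to be holomorphic
and of polynomial growth in a half plane `Re s > -η`, and `c = c⁺(M)` Deligne's period. The point `0` is the centre of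
the critical strip, where nothing is known about the convergence of the Euler product. Let

`P(x) = ∏_{p ≤ x} |P_p(1)|`, `P*(x) = exp (- ∑_{p^k ≤ x} tr(Frob_p^k)/k)`

be the (reciprocals of the) partial Euler products at `0`, without and with the higher prime powers, and for real `ρ` and
`A > 0` put `δ(ρ, A; x) = log (A P*(x) / (e^γ log x)^ρ)`.

1. For all real `ρ` and `A > 0` the following are equivalent: `L` has no zeros with `Re s > 0`, `ρ = ord_{s=0} L` and
   `L(s)/s^ρ → A`; the mean square of `log x · δ(ρ, A; x)` is bounded; `log x · δ(ρ, A; x)` has a LIMITING LOGARITHMIC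
   DISTRIBUTION `ν` with a second moment, to which the mean squares tend; the same, and `ν` is unique, has the mean `0`
   and the variance `∑_{t ≠ 0} m_t²/t²` (`m_t` the order of `L` at `it`), and the set of all `x` with
   `log x · δ(ρ, A; x) > y` has the logarithmic density `ν(y, ∞)` if `ν{y} = 0`.
2. The Riemann hypothesis for `L` and DELIGNE'S CONJECTURE `L(M, 0) ∈ ℚ · c⁺(M)` hold together if and only if EITHER there
   is a rational `q` with `A = q c > 0` such that `log x · log (A P*(x))` has a limiting logarithmic distribution with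
   convergence of the mean squares, OR there are real `ρ > 0`, `A > 0` such that `log x · δ(ρ, A; x)` has one.

The same for the original products, with `A e^k` in the place of `A`, if
`log x · (∑_{√x < p ≤ x} tr(Frob_p²)/2 - k) → 0` (Theorem of Rankin and Selberg with a zero-free region in the known cases).
-/

set_option autoImplicit false

namespace Pool.Agent.Results.MP_b696eb_nt.LimitLaw

open Filter Topology Set Complex Polynomial MeasureTheory
open Pool.Agent.Q5.DC (pStar pOrig sqs dStar dOrig RHm LeadM multM HasLimitLaw LimitLaw)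

variable {n : ℕ}

/-- The `α p j` are the reciprocal roots of `P p`; weight `-1`. -/
def IsRoots (P : Nat.Primes → ℚ[X]) (α : Nat.Primes → Fin n → ℂ) : Prop :=
  ∀ p, (P p).map (algebraMap ℚ ℂ) = ∏ j, (1 - C (α p j) * X) ∧ ∀ j, ‖α p j‖ ≤ (p : ℝ) ^ (-(1 / 2) : ℝ)

/-- `L` is the Euler product `∏_p P p(p^(-s))⁻¹` for `Re s > 1/2`, continued holomorphically and with polynomial growth to
a half plane `Re s > -η`. -/
def IsL (P : Nat.Primes → ℚ[X]) (L : ℂ → ℂ) : Prop :=
  (∃ (η C : ℝ) (κ : ℕ), 0 < η ∧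
    ∀ s : ℂ, -η < s.re → DifferentiableAt ℂ L s ∧ ‖L s‖ ≤ C * (1 + ‖s‖) ^ κ) ∧
  ∀ s : ℂ, 1 / 2 < s.re →
    HasProd (fun p : Nat.Primes => (eval₂ (algebraMap ℚ ℂ) ((p : ℂ) ^ (-s)) (P p))⁻¹) (L s)

/-- The error of the partial products: with the prime powers, or the original one if the second order terms tend to a
constant `k` with a rate. -/
def IsError (α : Nat.Primes → Fin n → ℂ) (δ : ℝ → ℝ → ℝ → ℝ) : Prop :=
  (∀ ρ A, δ ρ A = dStar 0 α ρ A) ∨
  ∃ k : ℝ, Tendsto (fun x : ℝ => Real.log x * (sqs 0 α x - k)) atTop (𝓝 0) ∧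
    ∀ ρ A, δ ρ A = dOrig 0 α ρ A k

/-- `∫_e^X (log x · δ(x))² dx/x ≤ B log X` for some `B` and all large `X`. -/
def BoundedMeanSquare (δ : ℝ → ℝ) : Prop := ∃ B : ℝ, ∀ᶠ X : ℝ in atTop,
  ∫ x in Real.exp 1..X, (Real.log x * δ x) ^ 2 / x ≤ B * Real.log X

open Pool.Agent.Q5.DC (Roots Temp IsErr err lead_exists roots_of temp_of value_of zero_of law_tfae)

/-- **Deligne's conjecture in weight `-1` and the limiting distribution of the partial products.** -/
theorem result {n : ℕ} (P : Nat.Primes → ℚ[X]) (α : Nat.Primes → Fin n → ℂ) (hα : IsRoots P α)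
    (L : ℂ → ℂ) (hL : IsL P L) (c : ℂ) (δ : ℝ → ℝ → ℝ → ℝ) (hδ : IsError α δ) :
    (∀ ρ A : ℝ, 0 < A →
      List.TFAE [RHm 0 L ∧ LeadM 0 L ρ A, BoundedMeanSquare (δ ρ A), HasLimitLaw (δ ρ A),
        LimitLaw (multM 0 L) (δ ρ A)]) ∧
    ((RHm 0 L ∧ ∃ q : ℚ, L 0 = q * c) ↔
      (∃ (q : ℚ) (A : ℝ), 0 < A ∧ (A : ℂ) = q * c ∧ HasLimitLaw (δ 0 A)) ∨
      ∃ ρ A : ℝ, 0 < ρ ∧ 0 < A ∧ HasLimitLaw (δ ρ A)) := by
  have hα' : ∀ p, (P p).map (algebraMap ℚ ℂ) = ∏ j, (1 - C (α p j) * X) ∧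
      ∀ j, ‖α p j‖ ≤ (p : ℝ) ^ (((0 : ℤ) : ℝ) - 1 / 2) := by
    intro p
    obtain ⟨h1, h2⟩ := hα p
    refine ⟨h1, fun j => ?_⟩
    have e : ((0 : ℤ) : ℝ) - 1 / 2 = -(1 / 2) := by norm_num
    rw [e]
    exact h2 j
  have hR : Roots 0 α := roots_of (τ := algebraMap ℚ ℂ) (fun x => by simp) hα'
  have hT : Temp 0 α L := by
    refine temp_of (τ := algebraMap ℚ ℂ) (P := P) hα' ⟨?_, fun s hs => ?_⟩
    · obtain ⟨η, C, κ, hη, h⟩ := hL.1
      exact ⟨η, C, κ, hη, fun s hs => h s (by simpa using hs)⟩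
    · exact hL.2 s (by simpa using hs)
  have hE : ∀ ρ A, IsErr 0 α ρ A (δ ρ A) := by
    intro ρ A
    rcases hδ with h | ⟨k, h1, h2⟩
    · exact Or.inl (h ρ A)
    · exact Or.inr ⟨k, h1, h2 ρ A⟩
  have main : ∀ ρ A : ℝ, 0 < A →
      List.TFAE [RHm 0 L ∧ LeadM 0 L ρ A, BoundedMeanSquare (δ ρ A), HasLimitLaw (δ ρ A),
        LimitLaw (multM 0 L) (δ ρ A)] := by
    intro ρ A hA
    obtain ⟨h1, h2, -, h3⟩ := err hR hT hA (hE ρ A)
    exact law_tfae h1 (h2.out 0 1) h3
  have key : ∀ ρ A : ℝ, 0 < A → (RHm 0 L ∧ LeadM 0 L ρ A ↔ HasLimitLaw (δ ρ A)) :=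
    fun ρ A hA => (main ρ A hA).out 0 2
  have h00 : (((0 : ℤ) : ℂ)) = 0 := by norm_num
  refine ⟨main, ?_⟩
  constructor
  · rintro ⟨hRH, q, hq⟩
    obtain ⟨r, A, hA, h1⟩ := lead_exists hR hT hRH
    have hlead : LeadM 0 L r A := ⟨r, rfl, h1⟩
    by_cases hr : r = 0
    · left
      subst hr
      have h2 : LeadM 0 L 0 A := ⟨0, by simp, h1⟩
      have h3 := (value_of hT (A := A)).1 h2
      rw [h00] at h3
      exact ⟨q, A, hA, by rw [← h3, hq], (key 0 A hA).1 ⟨hRH, h2⟩⟩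
    · right
      exact ⟨r, A, by exact_mod_cast Nat.pos_of_ne_zero hr, hA, (key r A hA).1 ⟨hRH, hlead⟩⟩
  · rintro (⟨q, A, hA, h1, h2⟩ | ⟨ρ, A, hρ, hA, h2⟩)
    · obtain ⟨h3, h4⟩ := (key 0 A hA).2 h2
      refine ⟨h3, q, ?_⟩
      have h5 := (value_of hT).1 h4
      rw [h00] at h5
      rw [h5, h1]
    · obtain ⟨h3, h4⟩ := (key ρ A hA).2 h2
      refine ⟨h3, 0, ?_⟩
      have h5 := zero_of hT hρ h4
      rw [h00] at h5
      rw [h5]
      simp

end Pool.Agent.Results.MP_b696eb_nt.LimitLaw
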