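import Pool.Agent.Q193.LT.Crit

/-!
# Critical values of motivic `L`-functions and tripartite hypergraphs

Let `M` be the category of motives over `ℚ` for absolute Hodge cycles, with rational coefficients, a
semisimple abelian category with Tate twists `N ↦ N(a)`. For a separated `ℚ`-scheme `X` of finite type
let `D.H i X` be the object of `M` given by the graded object of the weight filtration of the cohomology
with compact supports `H^i_c(X)`; for smooth projective `X` it is the motive `h^i(X)`. As the weight
filtration is strict, the long exact sequence of a closed subscheme and its open complement gives an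
exact sequence in `M`.

For a motive `N` let `C.crit N` say that `N` is pure and critical, let `C.L N = L(N, 0)` be the value of
its `L`-function (the meromorphic continuation is assumed, as in the problem) and let `C.c N` be
Deligne's period `c⁺(N)`, computed in some rational bases. `Deligne ℚ C N` is Deligne's conjecture for
`N`: if `N` is critical, then `L(N, 0) ∈ ℚ c⁺(N)`. `Facts D (Deligne ℚ C) N` says that the conjecture is
true for all direct factors of all Tate twists `N(a)`. Every motive over `ℚ` is a direct sum of direct
factors of motives `h^i(Y)(a)`, `Y` smooth projective over `ℚ`; so the conjecture of question Q1 says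
that `Facts D (Deligne ℚ C) (D.H i Y)` is true for all smooth projective `Y` over `ℚ` and all `i`.

For a finite set `H` of triples `(i, j, l)` (a tripartite hypergraph) let `X_H` be the smooth affine
cubic hypersurface `∑_{(i, j, l) ∈ H} x_i y_j z_l = 1` over `ℚ`.

**Theorem.** Deligne's conjecture is true for all critical motives over `ℚ` if and only if it is true for
the critical direct factors of the Tate twists of the motives `Gr^W H^i_c(X_H)`, for all finite sets `H`
of triples.
-/

set_option autoImplicit false

open CategoryTheory CategoryTheory.Limits AlgebraicGeometry Pool.Agent.Y116.UV Pool.Agent.Z125.UN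
  Pool.Agent.Q193.LT

universe v u

namespace Pool.Agent.Results.MP_b696eb_nt.TripartiteHypergraphs

/-- **Critical values and tripartite hypergraphs.** See the explanations above. The hypothesis `point`
is the known case of the Tate motives `ℚ(a)` (Euler). -/
theorem result {M : Type u} [Category.{v} M] [Abelian M] {D : CompactData ℚ M} (h : IsMotives D)
    {C : CritData M ℂ} (hC : IsCrit ℚ C)
    (point : ∀ i, Facts D (Deligne ℚ C) (D.H i (aff ℚ ℚ))) :
    (∀ Y : Sch ℚ, SmoothProj Y → ∀ i, Facts D (Deligne ℚ C) (D.H i Y)) ↔
      ∀ (a b c : ℕ) (H : Finset (Fin a × Fin b × Fin c)), ∀ i,
        Facts D (Deligne ℚ C) (D.H i (tripS ℚ H)) :=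
  proj_graph_iff frac_rat h.compact h.generated (deligne_serre h.compact h.semisimple hC) point

end Pool.Agent.Results.MP_b696eb_nt.TripartiteHypergraphs
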